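import Mathlib

/-!
# Definitions for `MP_efbb80_al`

Maps act on the right in the problem file; here `Function.End (Fin n)` is the full transformation
monoid (its product is composition).  Reversing the order of composition changes neither the set of
all products of a given set of maps nor the condition `x = x y x`.
-/

namespace Pool.Agent.Helper30.Reg

/-- The rank of a map `a : Ω → Ω`, `Ω = {1, …, n}`: the size of its image. -/
def rank {n : ℕ} (a : Function.End (Fin n)) : ℕ := (Finset.univ.image a).card

/-- `G ≤ S_n` is `k`-homogeneous: it is transitive on the `k`-element subsets of `Ω`. -/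
def KHomogeneous {n : ℕ} (k : ℕ) (G : Subgroup (Equiv.Perm (Fin n))) : Prop :=
  ∀ A B : Finset (Fin n), A.card = k → B.card = k → ∃ g ∈ G, A.image g = B

/-- `⟨a, G⟩`: the subsemigroup of `T_n` generated by the map `a` and the elements of `G`. -/
def gen {n : ℕ} (a : Function.End (Fin n)) (G : Subgroup (Equiv.Perm (Fin n))) :
    Subsemigroup (Function.End (Fin n)) :=
  Subsemigroup.closure ({a} ∪ {f | ∃ g ∈ G, f = (g : Fin n → Fin n)})

/-- A semigroup is regular: for every `x ∈ S` there is `y ∈ S` with `x = x y x`. -/
def IsRegular {n : ℕ} (S : Subsemigroup (Function.End (Fin n))) : Prop :=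
  ∀ x ∈ S, ∃ y ∈ S, x = x * y * x

/-- The property of Q1: for every `a` of rank `n - k` the semigroup `⟨a, G⟩` is regular. -/
def HasProperty {n : ℕ} (k : ℕ) (G : Subgroup (Equiv.Perm (Fin n))) : Prop :=
  ∀ a : Function.End (Fin n), rank a = n - k → IsRegular (gen a G)

end Pool.Agent.Helper30.Reg
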