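import Mathlib
import Pool.Agent.Helper30.RegDefs

/-!
# `k`-homogeneous groups have the property, and the converse for large `n`
-/

namespace Pool.Agent.Helper30.Reg

open Finset

variable {n : ℕ}

lemma image_compl_perm (g : Equiv.Perm (Fin n)) (A : Finset (Fin n)) :
    (Aᶜ).image g = (A.image g)ᶜ := by
  ext x
  simp only [mem_image, mem_compl]
  constructor
  · rintro ⟨y, hy, rfl⟩ ⟨z, hz, hzy⟩
    exact hy (g.injective hzy ▸ hz)
  · intro h
    refine ⟨g.symm x, fun hx => h ⟨_, hx, by simp⟩, by simp⟩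

/-- `k`-homogeneity is the same as `(n-k)`-homogeneity. -/
lemma KHomogeneous.compl {k : ℕ} {G : Subgroup (Equiv.Perm (Fin n))} (hk : k ≤ n)
    (h : KHomogeneous k G) : KHomogeneous (n - k) G := by
  intro A B hA hB
  obtain ⟨g, hg, hAB⟩ := h Aᶜ Bᶜ (by rw [card_compl, hA, Fintype.card_fin]; omega)
    (by rw [card_compl, hB, Fintype.card_fin]; omega)
  refine ⟨g, hg, ?_⟩
  rw [image_compl_perm] at hAB
  exact compl_injective hAB

/-- a permutation, as an element of the full transformation monoid -/
def pe (g : Equiv.Perm (Fin n)) : Function.End (Fin n) := (g : Fin n → Fin n)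

section
variable (a : Function.End (Fin n)) (G : Subgroup (Equiv.Perm (Fin n)))

lemma a_mem : a ∈ gen a G := Subsemigroup.subset_closure (Or.inl rfl)

lemma g_mem {g : Equiv.Perm (Fin n)} (hg : g ∈ G) : pe g ∈ gen a G :=
  Subsemigroup.subset_closure (Or.inr ⟨g, hg, rfl⟩)

lemma id_mem : (1 : Function.End (Fin n)) ∈ gen a G := g_mem a G G.one_mem

lemma comp_mem {s t : Function.End (Fin n)} (hs : s ∈ gen a G) (ht : t ∈ gen a G) :
    s * t ∈ gen a G := (gen a G).mul_mem hs ht

lemma pow_mem' {s : Function.End (Fin n)} (hs : s ∈ gen a G) (m : ℕ) : s ^ m ∈ gen a G := by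
  induction m with
  | zero => exact id_mem a G
  | succ m ih => rw [pow_succ]; exact comp_mem a G ih hs

/-- a map of a finite set into itself which is a permutation of `I` has a power which is the
identity on `I` -/
lemma exists_pow_id (s : Function.End (Fin n)) (I : Finset (Fin n)) (hI : I.image s = I) :
    ∃ m : ℕ, 1 ≤ m ∧ ∀ i ∈ I, (s ^ m) i = i := by
  classical
  have hmaps : ∀ i ∈ I, s i ∈ I := fun i hi => hI ▸ mem_image_of_mem s hi
  have hinj : Set.InjOn s I := by
    have : (I.image s).card = I.card := by rw [hI]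
    exact card_image_iff.mp this
  let f : I → I := fun i => ⟨s i, hmaps i i.2⟩
  have hf : Function.Injective f := by
    intro i j hij
    exact Subtype.ext (hinj i.2 j.2 (Subtype.ext_iff.mp hij))
  let σ : Equiv.Perm I := Equiv.ofBijective f ((Finite.injective_iff_bijective).1 hf)
  refine ⟨orderOf σ, (orderOf_pos σ), ?_⟩
  have key : ∀ (m : ℕ) (i : I), (s ^ m) i = ((σ ^ m) i : Fin n) := by
    intro m
    induction m with
    | zero => intro i; rfl
    | succ m ih =>
      intro i
      rw [pow_succ, pow_succ]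
      have h1 : (s ^ m * s) (i : Fin n) = (s ^ m) (s i) := rfl
      have h2 : (σ ^ m * σ) i = (σ ^ m) (σ i) := rfl
      rw [h1, h2, ← ih (σ i)]
      rfl
  intro i hi
  have := key (orderOf σ) ⟨i, hi⟩
  rw [pow_orderOf_eq_one] at this
  exact this

/-- Reversibility: if `G` is homogeneous on sets of the size of the image of `a`, then every move
`I → a(I)`, `a` injective on `I`, can be undone inside `⟨a, G⟩`. -/
lemma reversible (hom : KHomogeneous (rank a) G) (I : Finset (Fin n)) (hI : Set.InjOn a I) :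
    ∃ s ∈ gen a G, ∀ i ∈ I, s (a i) = i := by
  classical
  -- extend `I` to a transversal `τ` of the kernel of `a`
  obtain ⟨τ, hIτ, hτinj, hτim⟩ : ∃ τ : Finset (Fin n), I ⊆ τ ∧ Set.InjOn a τ ∧
      τ.image a = univ.image a := by
    obtain ⟨u, hu1, -, hu3, hu4⟩ :=
      Set.InjOn.exists_subset_injOn_subset_range_eq hI (Set.subset_univ _)
    have hfin : u.Finite := Set.toFinite u
    refine ⟨hfin.toFinset, ?_, ?_, ?_⟩
    · intro x hx
      rw [Set.Finite.mem_toFinset]
      exact hu1 (by exact_mod_cast hx)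
    · rw [Set.Finite.coe_toFinset]
      exact hu4
    · apply Finset.coe_injective
      rw [coe_image, coe_image, Set.Finite.coe_toFinset, hu3, coe_univ]
  -- the reachable sets
  let R : Finset (Fin n) → Prop := fun J => ∃ s ∈ gen a G, (I.image a).image s = J
  have hRg : ∀ g ∈ G, ∀ J, R J → R (J.image g) := by
    rintro g hg J ⟨s, hs, rfl⟩
    refine ⟨pe g * s, comp_mem a G (g_mem a G hg) hs, ?_⟩
    rw [image_image (s := I.image a)]
    rfl
  have hRa : ∀ J, R J → R (J.image a) := by
    rintro J ⟨s, hs, rfl⟩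
    refine ⟨a * s, comp_mem a G (a_mem a G) hs, ?_⟩
    rw [image_image (s := I.image a)]
    rfl
  let μ : Finset (Fin n) → ℕ := fun σ => ((σ.powersetCard I.card).filter R).card
  have hμ : ∀ σ σ' : Finset (Fin n), σ.card = rank a → σ'.card = rank a → μ σ ≤ μ σ' := by
    intro σ σ' hσ hσ'
    obtain ⟨g, hg, hgσ⟩ := hom σ σ' hσ hσ'
    refine card_le_card_of_injOn (fun J => J.image g) ?_ ?_
    · intro J hJ
      simp only [coe_filter, mem_powersetCard, Set.mem_ofPred_eq] at hJ ⊢
      refine ⟨⟨?_, ?_⟩, hRg g hg J hJ.2⟩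
      · rw [← hgσ]; exact image_subset_image hJ.1.1
      · rw [card_image_of_injective _ g.injective, hJ.1.2]
    · intro J _ J' _ h
      exact image_injective g.injective h
  have hcardτ : τ.card = rank a := by
    rw [← card_image_iff.mpr hτinj, hτim]; rfl
  have hcardT : (univ.image a).card = rank a := rfl
  -- the injection `J ↦ a(J)`
  have hmaps : ∀ J ∈ (τ.powersetCard I.card).filter R,
      J.image a ∈ ((univ.image a).powersetCard I.card).filter R := by
    intro J hJ
    rw [mem_filter, mem_powersetCard] at hJ ⊢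
    refine ⟨⟨image_subset_image (subset_univ _), ?_⟩, hRa J hJ.2⟩
    rw [card_image_iff.mpr (hτinj.mono (by exact_mod_cast hJ.1.1)), hJ.1.2]
  have hinj : Set.InjOn (fun J : Finset (Fin n) => J.image a)
      ((τ.powersetCard I.card).filter R : Finset (Finset (Fin n))) := by
    intro J hJ J' hJ' h
    rw [mem_coe, mem_filter, mem_powersetCard] at hJ hJ'
    have h1 : (a '' (J : Set (Fin n))) = a '' (J' : Set (Fin n)) := by
      have := congrArg (fun K : Finset (Fin n) => (K : Set (Fin n))) h
      simpa using this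
    have h2 := (hτinj.image_eq_image_iff (s₁ := (J : Set (Fin n))) (s₂ := (J' : Set (Fin n)))
      (by exact_mod_cast hJ.1.1) (by exact_mod_cast hJ'.1.1)).mp h1
    exact_mod_cast h2
  have hsurj : ((τ.powersetCard I.card).filter R).image (fun J => J.image a) =
      ((univ.image a).powersetCard I.card).filter R := by
    refine eq_of_subset_of_card_le ?_ ?_
    · intro K hK
      obtain ⟨J, hJ, rfl⟩ := mem_image.mp hK
      exact hmaps J hJ
    · rw [card_image_of_injOn hinj]
      exact hμ _ _ hcardT hcardτ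
  have hmem : I.image a ∈ ((univ.image a).powersetCard I.card).filter R := by
    rw [mem_filter, mem_powersetCard]
    refine ⟨⟨image_subset_image (subset_univ _), card_image_iff.mpr hI⟩, 1, id_mem a G, ?_⟩
    exact image_id
  rw [← hsurj, mem_image] at hmem
  obtain ⟨J, hJ, hJI⟩ := hmem
  rw [mem_filter, mem_powersetCard] at hJ
  have hJeq : J = I := by
    have h1 : (a '' (J : Set (Fin n))) = a '' (I : Set (Fin n)) := by
      have := congrArg (fun K : Finset (Fin n) => (K : Set (Fin n))) hJI
      simpa using this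
    have h2 := (hτinj.image_eq_image_iff (s₁ := (J : Set (Fin n))) (s₂ := (I : Set (Fin n)))
      (by exact_mod_cast hJ.1.1) (by exact_mod_cast hIτ)).mp h1
    exact_mod_cast h2
  rw [hJeq] at hJ
  obtain ⟨s, hs, hsI⟩ := hJ.2
  have hsa : I.image (s * a : Function.End (Fin n)) = I := by
    conv_rhs => rw [← hsI]
    rw [image_image]; rfl
  obtain ⟨m, hm, hid⟩ := exists_pow_id (s * a) I hsa
  obtain ⟨m, rfl⟩ : ∃ m', m = m' + 1 := ⟨m - 1, by omega⟩
  refine ⟨(s * a) ^ m * s, comp_mem a G (pow_mem' a G (comp_mem a G hs (a_mem a G)) m) hs, ?_⟩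
  intro i hi
  have := hid i hi
  rw [pow_succ] at this
  exact this

/-- The main lemma: if `G` is homogeneous on sets of size `rank a`, then `⟨a, G⟩` is regular. -/
theorem isRegular_gen (hom : KHomogeneous (rank a) G) : IsRegular (gen a G) := by
  classical
  have key : ∀ b ∈ Submonoid.closure ({a} ∪ {f | ∃ g ∈ G, f = (g : Fin n → Fin n)} :
      Set (Function.End (Fin n))), ∃ c ∈ gen a G, b = b * c * b := by
    intro b hb
    induction hb using Submonoid.closure_induction_left with
    | one => exact ⟨1, id_mem a G, rfl⟩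
    | mul_left x hx b hb ih =>
      obtain ⟨c, hc, hbc⟩ := ih
      have hb' : ∀ p, b (c (b p)) = b p := fun p => (congrFun hbc p).symm
      rcases hx with hx | ⟨g, hg, hx⟩
      · rw [Set.mem_singleton_iff] at hx
        subst hx
        obtain ⟨u, -, hu2, hu3, hu4⟩ :=
          Set.InjOn.exists_subset_injOn_subset_range_eq (Set.injOn_empty x)
            (Set.empty_subset (Set.range b))
        obtain ⟨s, hs, hsu⟩ := reversible x G hom (Set.toFinite u).toFinset (by
          rw [Set.Finite.coe_toFinset]; exact hu4)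
        refine ⟨c * s, comp_mem x G hc hs, ?_⟩
        funext p
        show x (b p) = x (b (c (s (x (b p)))))
        have hp : x (b p) ∈ x '' u := by
          rw [hu3]; exact ⟨b p, ⟨p, rfl⟩, rfl⟩
        obtain ⟨i, hi, hip⟩ := hp
        rw [← hip, hsu i (by rw [Set.Finite.mem_toFinset]; exact hi)]
        obtain ⟨q, rfl⟩ := hu2 hi
        rw [hb']
      · subst hx
        refine ⟨c * pe g⁻¹, comp_mem a G hc (g_mem a G (G.inv_mem hg)), ?_⟩
        funext p
        show g (b p) = g (b (c (g⁻¹ (g (b p)))))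
        have h1 : g⁻¹ (g (b p)) = b p := by simp
        rw [h1, hb']
  intro b hb
  refine key b ?_
  have hle : Subsemigroup.closure ({a} ∪ {f | ∃ g ∈ G, f = (g : Fin n → Fin n)} :
      Set (Function.End (Fin n))) ≤
      (Submonoid.closure ({a} ∪ {f | ∃ g ∈ G, f = (g : Fin n → Fin n)})).toSubsemigroup :=
    Subsemigroup.closure_le.mpr Submonoid.subset_closure
  exact hle hb

/-- Elements of `⟨a, G⟩` are elements of `G` or have the form `z a g` with `g ∈ G`. -/
lemma mem_gen_cases {y : Function.End (Fin n)} (hy : y ∈ gen a G) :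
    ∃ g ∈ G, y = pe g ∨ ∃ z : Function.End (Fin n), y = z * a * pe g := by
  induction hy using Subsemigroup.closure_induction with
  | mem x hx =>
    rcases hx with hx | ⟨g, hg, hx⟩
    · exact ⟨1, G.one_mem, Or.inr ⟨1, by rw [Set.mem_singleton_iff.mp hx]; rfl⟩⟩
    · exact ⟨g, hg, Or.inl hx⟩
  | mul x y hx hy ihx ihy =>
    obtain ⟨g, hg, rfl | ⟨z, rfl⟩⟩ := ihy
    · obtain ⟨g', hg', rfl | ⟨z', rfl⟩⟩ := ihx
      · exact ⟨g' * g, G.mul_mem hg' hg, Or.inl rfl⟩
      · exact ⟨g' * g, G.mul_mem hg' hg, Or.inr ⟨z', rfl⟩⟩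
    · exact ⟨g, hg, Or.inr ⟨x * z, rfl⟩⟩

/-- If `a` is regular in `⟨a, G⟩` then `a` is injective on some `G`-translate of its image. -/
lemma injOn_of_regular {y : Function.End (Fin n)} (hy : y ∈ gen a G) (h : a = a * y * a) :
    ∃ g ∈ G, ∀ p q, a (g (a p)) = a (g (a q)) → a p = a q := by
  obtain ⟨g, hg, rfl | ⟨z, rfl⟩⟩ := mem_gen_cases a G hy
  · refine ⟨g, hg, fun p q hpq => ?_⟩
    have h1 : ∀ p, a p = a (g (a p)) := fun p => congrFun h p
    rw [h1 p, h1 q, hpq]
  · refine ⟨g, hg, fun p q hpq => ?_⟩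
    have h1 : ∀ p, a p = a (z (a (g (a p)))) := fun p => congrFun h p
    rw [h1 p, h1 q, hpq]

end

/-- The property implies `(k, k+1)`-homogeneity. -/
lemma exists_image_subset {k : ℕ} {G : Subgroup (Equiv.Perm (Fin n))} (h : HasProperty k G)
    (A B : Finset (Fin n)) (hA : A.card = k) (hB : B.card = k + 1) :
    ∃ g ∈ G, A.image g ⊆ B := by
  classical
  have hBn : B.card ≤ n := by simpa using card_le_univ B
  obtain ⟨b0, hb0⟩ : B.Nonempty := card_pos.mp (by omega)
  have hcard : (insert b0 Bᶜ).card = Aᶜ.card := by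
    rw [card_insert_of_notMem (by simpa using hb0), card_compl, card_compl, Fintype.card_fin]
    omega
  let e : {x // x ∈ insert b0 Bᶜ} ≃ {x // x ∈ Aᶜ} := Finset.equivOfCardEq hcard
  let φ : Fin n → {x // x ∈ insert b0 Bᶜ} := fun x =>
    if hx : x ∈ B then ⟨b0, mem_insert_self _ _⟩ else ⟨x, mem_insert_of_mem (by simpa using hx)⟩
  let a : Function.End (Fin n) := fun x => (e (φ x) : Fin n)
  have hφ : ∀ y : {x // x ∈ insert b0 Bᶜ}, φ y = y := by
    rintro ⟨y, hy⟩
    by_cases hyB : y ∈ B
    · have : y = b0 := by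
        rcases mem_insert.mp hy with h | h
        · exact h
        · exact absurd hyB (by simpa using h)
      subst this
      simp only [φ, dif_pos hyB]
    · simp only [φ, dif_neg hyB]
  have him : univ.image a = Aᶜ := by
    ext y
    constructor
    · intro hy
      obtain ⟨x, -, rfl⟩ := mem_image.mp hy
      exact (e (φ x)).2
    · intro hy
      refine mem_image.mpr ⟨(e.symm ⟨y, hy⟩ : Fin n), mem_univ _, ?_⟩
      show (e (φ _) : Fin n) = y
      rw [hφ, Equiv.apply_symm_apply]
  have hrank : rank a = n - k := by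
    rw [rank, him, card_compl, Fintype.card_fin, hA]
  obtain ⟨y, hy, hay⟩ := h a hrank a (a_mem a G)
  obtain ⟨g, hg, hinj⟩ := injOn_of_regular a G hy hay
  refine ⟨g, hg, ?_⟩
  -- at most one element of `B` lies outside `g(A)`
  have hout : (B \ A.image g).card ≤ 1 := by
    rw [card_le_one]
    intro x hx x' hx'
    rw [mem_sdiff] at hx hx'
    have hg' : ∀ x, x ∉ A.image g → ∃ p, g (a p) = x := by
      intro x hx
      have h1 : g.symm x ∈ univ.image a := by
        rw [him, mem_compl]
        intro h2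
        exact hx (mem_image.mpr ⟨_, h2, by simp⟩)
      obtain ⟨p, -, hp⟩ := mem_image.mp h1
      exact ⟨p, by rw [hp]; simp⟩
    obtain ⟨p, hp⟩ := hg' x hx.2
    obtain ⟨q, hq⟩ := hg' x' hx'.2
    have haB : ∀ x ∈ B, ∀ x' ∈ B, a x = a x' := by
      intro x hx x' hx'
      simp only [a, φ, dif_pos hx, dif_pos hx']
    have := hinj p q (by rw [hp, hq]; exact haB x hx.1 x' hx'.1)
    rw [← hp, ← hq, this]
  have hin : k ≤ (B ∩ A.image g).card := by
    have := card_sdiff_add_card_inter B (A.image g)
    omega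
  have heq : B ∩ A.image g = A.image g := by
    refine eq_of_subset_of_card_le inter_subset_right ?_
    rw [card_image_of_injective _ g.injective, hA]
    exact hin
  rw [← heq]
  exact inter_subset_left

/-- Ramsey's theorem for `k`-uniform hypergraphs and two colours. -/
lemma ramsey (k : ℕ) : ∀ s t : ℕ, ∃ N : ℕ, ∀ (m : ℕ) (X : Finset (Fin m)) (P : Finset (Fin m) → Prop),
    N ≤ X.card →
      (∃ Y ⊆ X, s ≤ Y.card ∧ ∀ A ⊆ Y, A.card = k → P A) ∨
      (∃ Y ⊆ X, t ≤ Y.card ∧ ∀ A ⊆ Y, A.card = k → ¬ P A) := by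
  classical
  induction k with
  | zero =>
    intro s t
    refine ⟨max s t, fun m X P hX => ?_⟩
    by_cases h : P ∅
    · exact Or.inl ⟨X, Subset.rfl, (le_max_left _ _).trans hX, fun A _ hA => by
        rw [card_eq_zero.mp hA]; exact h⟩
    · exact Or.inr ⟨X, Subset.rfl, (le_max_right _ _).trans hX, fun A _ hA => by
        rw [card_eq_zero.mp hA]; exact h⟩
  | succ k ih =>
    intro s
    induction s with
    | zero =>
      intro t
      refine ⟨0, fun m X P _ => Or.inl ⟨∅, empty_subset _, le_rfl, fun A hA hA' => ?_⟩⟩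
      rw [subset_empty.mp hA] at hA'
      simp at hA'
    | succ s ihs =>
      intro t
      induction t with
      | zero =>
        refine ⟨0, fun m X P _ => Or.inr ⟨∅, empty_subset _, le_rfl, fun A hA hA' => ?_⟩⟩
        rw [subset_empty.mp hA] at hA'
        simp at hA'
      | succ t iht =>
        obtain ⟨N1, hN1⟩ := ihs (t + 1)
        obtain ⟨N2, hN2⟩ := iht
        obtain ⟨N', hN'⟩ := ih N1 N2
        refine ⟨N' + 1, fun m X P hX => ?_⟩
        obtain ⟨v, hv⟩ : X.Nonempty := card_pos.mp (by omega)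
        have ext : ∀ (Z : Finset (Fin m)) (Q : Finset (Fin m) → Prop), v ∉ Z →
            (∀ A ⊆ Z, A.card = k → Q (insert v A)) → (∀ A ⊆ Z, A.card = k + 1 → Q A) →
            ∀ A ⊆ insert v Z, A.card = k + 1 → Q A := by
          intro Z Q hvZ h1 h2 A hA hAc
          by_cases hvA : v ∈ A
          · have h3 : insert v (A.erase v) = A := insert_erase hvA
            rw [← h3]
            refine h1 _ ?_ (by rw [card_erase_of_mem hvA, hAc]; rfl)
            intro x hx
            rw [mem_erase] at hx
            exact (mem_insert.mp (hA hx.2)).resolve_left hx.1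
          · refine h2 A ?_ hAc
            intro x hx
            refine (mem_insert.mp (hA hx)).resolve_left ?_
            rintro rfl
            exact hvA hx
        rcases hN' m (X.erase v) (fun A => P (insert v A)) (by
          rw [card_erase_of_mem hv]; omega) with ⟨Y, hYX, hYc, hY⟩ | ⟨Y, hYX, hYc, hY⟩
        · have hvY : v ∉ Y := fun h => (mem_erase.mp (hYX h)).1 rfl
          rcases hN1 m Y P hYc with ⟨Z, hZY, hZc, hZ⟩ | ⟨Z, hZY, hZc, hZ⟩
          · refine Or.inl ⟨insert v Z, ?_, ?_, ?_⟩
            · exact insert_subset hv ((hZY.trans hYX).trans (erase_subset _ _))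
            · rw [card_insert_of_notMem fun h => hvY (hZY h)]; omega
            · exact ext Z P (fun h => hvY (hZY h)) (fun A hA => hY A (hA.trans hZY)) hZ
          · exact Or.inr ⟨Z, (hZY.trans hYX).trans (erase_subset _ _), hZc, hZ⟩
        · have hvY : v ∉ Y := fun h => (mem_erase.mp (hYX h)).1 rfl
          rcases hN2 m Y P hYc with ⟨Z, hZY, hZc, hZ⟩ | ⟨Z, hZY, hZc, hZ⟩
          · exact Or.inl ⟨Z, (hZY.trans hYX).trans (erase_subset _ _), hZc, hZ⟩
          · refine Or.inr ⟨insert v Z, ?_, ?_, ?_⟩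
            · exact insert_subset hv ((hZY.trans hYX).trans (erase_subset _ _))
            · rw [card_insert_of_notMem fun h => hvY (hZY h)]; omega
            · exact ext Z (fun A => ¬ P A) (fun h => hvY (hZY h))
                (fun A hA => hY A (hA.trans hZY)) hZ

/-- The converse for large `n`. -/
theorem exists_bound (k : ℕ) : ∃ N : ℕ, ∀ n : ℕ, N ≤ n → ∀ G : Subgroup (Equiv.Perm (Fin n)),
    HasProperty k G → KHomogeneous k G := by
  classical
  obtain ⟨N, hN⟩ := ramsey k (k + 1) (k + 1)
  refine ⟨N, fun n hn G h A A' hA hA' => ?_⟩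
  rcases hN n univ (fun J => ∃ g ∈ G, A.image g = J) (by simpa using hn) with
    ⟨Y, -, hYc, hY⟩ | ⟨Y, -, hYc, hY⟩
  · obtain ⟨B, hBY, hB⟩ := exists_subset_card_eq hYc
    obtain ⟨g', hg', hsub⟩ := exists_image_subset h A' B hA' hB
    obtain ⟨g, hg, hgA⟩ := hY (A'.image g') (hsub.trans hBY)
      (by rw [card_image_of_injective _ g'.injective, hA'])
    refine ⟨g'⁻¹ * g, G.mul_mem (G.inv_mem hg') hg, ?_⟩
    have h1 : A.image (g'⁻¹ * g : Equiv.Perm (Fin n)) = (A.image g).image (g'⁻¹ : Equiv.Perm (Fin n)) := by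
      rw [image_image]; rfl
    rw [h1, hgA, image_image]
    have h2 : ((g'⁻¹ : Equiv.Perm (Fin n)) : Fin n → Fin n) ∘ (g' : Fin n → Fin n) = id := by
      funext x; simp
    rw [h2, image_id]
  · exfalso
    obtain ⟨B, hBY, hB⟩ := exists_subset_card_eq hYc
    obtain ⟨g, hg, hsub⟩ := exists_image_subset h A B hA hB
    exact hY (A.image g) (hsub.trans hBY) (by rw [card_image_of_injective _ g.injective, hA])
      ⟨g, hg, rfl⟩

/-- `k`-homogeneous groups have the property. -/
theorem hasProperty_of_kHomogeneous {k : ℕ} (hk : k ≤ n) {G : Subgroup (Equiv.Perm (Fin n))}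
    (h : KHomogeneous k G) : HasProperty k G := by
  intro a ha
  exact isRegular_gen a G (by rw [ha]; exact h.compl hk)

end Pool.Agent.Helper30.Reg
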